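import Pool.Agent.Lib.MP_8c9cbf_an.K.KDefs

/-! Task K2: the algebra of `io`, `rp`, `ip`. -/

namespace Pool.Agent.MP8c9cbf

open Finset Filter Topology

variable {𝕜 E : Type} [RCLike 𝕜] [NormedAddCommGroup E] [NormedSpace ℝ E]

namespace KX

private theorem opext {T U : KX 𝕜 E →L[𝕜] KX 𝕜 E}
    (h : ∀ (f : KX 𝕜 E) (z : 𝕜), (T f).fn z = (U f).fn z) : T = U :=
  ContinuousLinearMap.ext fun f => ext' fun z => h f z

theorem norm_io_le (A : E →L[ℝ] E) : ‖(io A : KX 𝕜 E →L[𝕜] KX 𝕜 E)‖ ≤ ‖A‖ :=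
  LinearMap.mkContinuous_norm_le _ (norm_nonneg _) _

theorem io_add (A B : E →L[ℝ] E) : (io (A + B) : KX 𝕜 E →L[𝕜] KX 𝕜 E) = io A + io B :=
  opext fun f z => by
    rw [_root_.add_apply, fn_add, io_fn, _root_.add_apply,
      _root_.add_apply, io_fn, io_fn]

theorem io_sub (A B : E →L[ℝ] E) : (io (A - B) : KX 𝕜 E →L[𝕜] KX 𝕜 E) = io A - io B :=
  opext fun f z => by
    rw [_root_.sub_apply, fn_sub, io_fn, _root_.sub_apply,
      _root_.sub_apply, io_fn, io_fn]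

private theorem fn_real_mul (f : KX 𝕜 E) (r : ℝ) (z : 𝕜) :
    f.fn ((r : 𝕜) * z) = r • f.fn z := by
  have : (r : 𝕜) * z = r • z := by rw [RCLike.real_smul_eq_coe_mul]
  rw [this, map_smul]

theorem io_smul (r : ℝ) (A : E →L[ℝ] E) :
    (io (r • A) : KX 𝕜 E →L[𝕜] KX 𝕜 E) = (r : 𝕜) • io A :=
  opext fun f z => by
    rw [_root_.smul_apply, smul_fn, io_fn, _root_.smul_apply, io_fn,
      fn_real_mul, map_smul]

theorem io_one : (io (1 : E →L[ℝ] E) : KX 𝕜 E →L[𝕜] KX 𝕜 E) = 1 :=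
  opext fun f z => by
    rw [io_fn]; rfl

theorem io_mul (A B : E →L[ℝ] E) : (io (A * B) : KX 𝕜 E →L[𝕜] KX 𝕜 E) = io A * io B :=
  opext fun f z => by
    rw [io_fn]; rfl

theorem io_pow (A : E →L[ℝ] E) (n : ℕ) :
    (io (A ^ n) : KX 𝕜 E →L[𝕜] KX 𝕜 E) = io A ^ n := by
  induction n with
  | zero => rw [pow_zero, pow_zero, io_one]
  | succ n ih => rw [pow_succ, pow_succ, io_mul, ih]

private theorem io_zero : (io (0 : E →L[ℝ] E) : KX 𝕜 E →L[𝕜] KX 𝕜 E) = 0 :=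
  opext fun f z => by
    rw [io_fn]; rfl

/-- `io` as an additive map -/
private noncomputable def ioHom : (E →L[ℝ] E) →+ (KX 𝕜 E →L[𝕜] KX 𝕜 E) where
  toFun := io
  map_zero' := io_zero
  map_add' := io_add

private theorem ioHom_continuous : Continuous (ioHom (𝕜 := 𝕜) (E := E)) := by
  apply AddMonoidHomClass.continuous_of_bound _ 1
  intro A
  rw [one_mul]
  exact norm_io_le A

theorem norm_rp_le (T : KX 𝕜 E →L[𝕜] KX 𝕜 E) : ‖rp T‖ ≤ ‖T‖ :=
  LinearMap.mkContinuous_norm_le _ (norm_nonneg _) _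

theorem norm_ip_le (T : KX 𝕜 E →L[𝕜] KX 𝕜 E) : ‖ip T‖ ≤ ‖T‖ :=
  LinearMap.mkContinuous_norm_le _ (norm_nonneg _) _

theorem rp_add (T U : KX 𝕜 E →L[𝕜] KX 𝕜 E) : rp (T + U) = rp T + rp U :=
  ContinuousLinearMap.ext fun x => by
    rw [_root_.add_apply, rp_apply, rp_apply, rp_apply,
      _root_.add_apply, fn_add, _root_.add_apply]

theorem ip_add (T U : KX 𝕜 E →L[𝕜] KX 𝕜 E) : ip (T + U) = ip T + ip U :=
  ContinuousLinearMap.ext fun x => by
    rw [_root_.add_apply, ip_apply, ip_apply, ip_apply,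
      _root_.add_apply, fn_add, _root_.add_apply, neg_add]

private theorem rp_zero : rp (0 : KX 𝕜 E →L[𝕜] KX 𝕜 E) = 0 :=
  ContinuousLinearMap.ext fun _ => rfl

private theorem ip_zero : ip (0 : KX 𝕜 E →L[𝕜] KX 𝕜 E) = 0 :=
  ContinuousLinearMap.ext fun x => by
    rw [ip_apply]
    change -(0 : E) = 0
    exact neg_zero

private noncomputable def rpHom : (KX 𝕜 E →L[𝕜] KX 𝕜 E) →+ (E →L[ℝ] E) where
  toFun := rp
  map_zero' := rp_zero
  map_add' := rp_add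

private theorem rpHom_continuous : Continuous (rpHom (𝕜 := 𝕜) (E := E)) := by
  apply AddMonoidHomClass.continuous_of_bound _ 1
  intro A
  rw [one_mul]
  exact norm_rp_le A

private noncomputable def ipHom : (KX 𝕜 E →L[𝕜] KX 𝕜 E) →+ (E →L[ℝ] E) where
  toFun := ip
  map_zero' := ip_zero
  map_add' := ip_add

private theorem ipHom_continuous : Continuous (ipHom (𝕜 := 𝕜) (E := E)) := by
  apply AddMonoidHomClass.continuous_of_bound _ 1
  intro A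
  rw [one_mul]
  exact norm_ip_le A

/-- `io` of a convergent series -/
theorem io_tsum {μ : ℕ → ℝ} {B : ℕ → E →L[ℝ] E} (h : Summable fun l => μ l • B l) :
    (io (∑' l, μ l • B l) : KX 𝕜 E →L[𝕜] KX 𝕜 E) = ∑' l, (μ l : 𝕜) • io (B l) := by
  have h1 := h.hasSum.map (ioHom (𝕜 := 𝕜) (E := E)) ioHom_continuous
  have h2 : (ioHom (𝕜 := 𝕜) (E := E)) ∘ (fun l => μ l • B l) =
      fun l => (μ l : 𝕜) • (io (B l) : KX 𝕜 E →L[𝕜] KX 𝕜 E) := by
    funext l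
    exact io_smul (μ l) (B l)
  rw [h2] at h1
  exact h1.tsum_eq.symm

theorem rp_smul_io (c : 𝕜) (A : E →L[ℝ] E) : rp (c • (io A : KX 𝕜 E →L[𝕜] KX 𝕜 E)) =
    RCLike.re c • A :=
  ContinuousLinearMap.ext fun x => by
    rw [rp_apply, _root_.smul_apply, smul_fn, io_fn, jv_fn, map_smul, mul_one,
      _root_.smul_apply]

theorem ip_smul_io (c : 𝕜) (A : E →L[ℝ] E) : ip (c • (io A : KX 𝕜 E →L[𝕜] KX 𝕜 E)) =
    RCLike.im c • A :=
  ContinuousLinearMap.ext fun x => by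
    rw [ip_apply, _root_.smul_apply, smul_fn, io_fn, jv_fn, map_smul,
      _root_.smul_apply, RCLike.mul_re, RCLike.I_re]
    have h : RCLike.im c * RCLike.im (RCLike.I : 𝕜) = RCLike.im c := RCLike.mul_im_I_ax c
    rw [h, mul_zero, zero_sub, neg_smul, neg_neg]

theorem rp_tsum {c : ℕ → 𝕜} {B : ℕ → E →L[ℝ] E}
    (h : Summable fun l => c l • (io (B l) : KX 𝕜 E →L[𝕜] KX 𝕜 E)) :
    rp (∑' l, c l • (io (B l) : KX 𝕜 E →L[𝕜] KX 𝕜 E)) = ∑' l, RCLike.re (c l) • B l := by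
  have h1 := h.hasSum.map (rpHom (𝕜 := 𝕜) (E := E)) rpHom_continuous
  have h2 : (rpHom (𝕜 := 𝕜) (E := E)) ∘
      (fun l => c l • (io (B l) : KX 𝕜 E →L[𝕜] KX 𝕜 E)) =
      fun l => RCLike.re (c l) • B l := by
    funext l
    exact rp_smul_io (c l) (B l)
  rw [h2] at h1
  exact h1.tsum_eq.symm

theorem ip_tsum {c : ℕ → 𝕜} {B : ℕ → E →L[ℝ] E}
    (h : Summable fun l => c l • (io (B l) : KX 𝕜 E →L[𝕜] KX 𝕜 E)) :
    ip (∑' l, c l • (io (B l) : KX 𝕜 E →L[𝕜] KX 𝕜 E)) = ∑' l, RCLike.im (c l) • B l := by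
  have h1 := h.hasSum.map (ipHom (𝕜 := 𝕜) (E := E)) ipHom_continuous
  have h2 : (ipHom (𝕜 := 𝕜) (E := E)) ∘
      (fun l => c l • (io (B l) : KX 𝕜 E →L[𝕜] KX 𝕜 E)) =
      fun l => RCLike.im (c l) • B l := by
    funext l
    exact ip_smul_io (c l) (B l)
  rw [h2] at h1
  exact h1.tsum_eq.symm

/-- `f = jv (f 1) + I • jv (-(f I))` -/
theorem eq_jv (f : KX 𝕜 E) : f = jv (f.fn 1) + (RCLike.I : 𝕜) • jv (-(f.fn RCLike.I)) :=
  ext' fun z => by
    rw [fn_add, _root_.add_apply, smul_fn, jv_fn, jv_fn, RCLike.I_mul_re,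
      neg_smul_neg]
    have h1 : z = RCLike.re z • (1 : 𝕜) + RCLike.im z • (RCLike.I : 𝕜) := by
      rw [RCLike.real_smul_eq_coe_mul, RCLike.real_smul_eq_coe_mul, mul_one,
        RCLike.re_add_im]
    conv_lhs => rw [h1]
    rw [map_add, map_smul, map_smul]

theorem decomp (T : KX 𝕜 E →L[𝕜] KX 𝕜 E) : T = io (rp T) + (RCLike.I : 𝕜) • io (ip T) := by
  apply ContinuousLinearMap.ext
  intro f
  have key : ∀ x : E, T (jv x) = jv (rp T x) + (RCLike.I : 𝕜) • jv (ip T x) := by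
    intro x
    rw [rp_apply, ip_apply]
    exact eq_jv (T (jv x))
  have hio : ∀ (A : E →L[ℝ] E) (x : E), (io A : KX 𝕜 E →L[𝕜] KX 𝕜 E) (jv x) = jv (A x) := by
    intro A x
    apply ext'
    intro z
    rw [io_fn, jv_fn, jv_fn, map_smul]
  have h2 : ∀ x : E, T (jv x) = (io (rp T) + (RCLike.I : 𝕜) • io (ip T) : KX 𝕜 E →L[𝕜] KX 𝕜 E) (jv x) := by
    intro x
    rw [_root_.add_apply, _root_.smul_apply, hio, hio]
    exact key x
  rw [eq_jv f, map_add, map_smul, map_add, map_smul, h2, h2]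

end KX

end Pool.Agent.MP8c9cbf
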