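import Pool.Agent.Lib.MP_8c9cbf_an.Defs

/-!
# Extension of scalars of a real Banach space

`KX 𝕜 E` is the space of real-linear maps `𝕜 → E` with the operator norm and with
`(c • f) z = f (c * z)`.  For `𝕜 = ℝ` it is `E`, for `𝕜 = ℂ` it is the (Taylor) complexification.
-/

namespace Pool.Agent.MP8c9cbf

open Finset Filter Topology

/-- the extension of scalars of a real normed space `E` to `𝕜` -/
def KX (𝕜 E : Type) [RCLike 𝕜] [NormedAddCommGroup E] [NormedSpace ℝ E] : Type := 𝕜 →L[ℝ] E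

namespace KX

variable {𝕜 E : Type} [RCLike 𝕜] [NormedAddCommGroup E] [NormedSpace ℝ E]

noncomputable instance : NormedAddCommGroup (KX 𝕜 E) :=
  inferInstanceAs (NormedAddCommGroup (𝕜 →L[ℝ] E))

instance [CompleteSpace E] : CompleteSpace (KX 𝕜 E) :=
  inferInstanceAs (CompleteSpace (𝕜 →L[ℝ] E))

/-- the underlying real-linear map -/
def fn (f : KX 𝕜 E) : 𝕜 →L[ℝ] E := f

/-- build an element from a real-linear map -/
def mk (f : 𝕜 →L[ℝ] E) : KX 𝕜 E := f

@[simp] theorem fn_mk (f : 𝕜 →L[ℝ] E) : (mk f).fn = f := rfl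

@[simp] theorem mk_fn (f : KX 𝕜 E) : mk f.fn = f := rfl

theorem ext' {f g : KX 𝕜 E} (h : ∀ z, f.fn z = g.fn z) : f = g :=
  ContinuousLinearMap.ext (f := f.fn) (g := g.fn) h

@[simp] theorem fn_add (f g : KX 𝕜 E) : (f + g).fn = f.fn + g.fn := rfl

@[simp] theorem fn_sub (f g : KX 𝕜 E) : (f - g).fn = f.fn - g.fn := rfl

@[simp] theorem fn_neg (f : KX 𝕜 E) : (-f).fn = -f.fn := rfl

@[simp] theorem fn_zero : (0 : KX 𝕜 E).fn = 0 := rfl

theorem norm_fn (f : KX 𝕜 E) : ‖f.fn‖ = ‖f‖ := rfl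

noncomputable instance : SMul 𝕜 (KX 𝕜 E) :=
  ⟨fun c f => mk (f.fn.comp (ContinuousLinearMap.mul ℝ 𝕜 c))⟩

@[simp] theorem smul_fn (c : 𝕜) (f : KX 𝕜 E) (z : 𝕜) : (c • f).fn z = f.fn (c * z) := rfl

noncomputable instance : Module 𝕜 (KX 𝕜 E) where
  one_smul f := ext' fun z => by simp
  mul_smul a b f := ext' fun z => by
    simp only [smul_fn]
    rw [← mul_assoc, mul_comm b a]
  smul_zero c := ext' fun z => by simp
  smul_add c f g := ext' fun z => by simp
  add_smul a b f := ext' fun z => by simp [add_mul]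
  zero_smul f := ext' fun z => by simp

noncomputable instance : NormedSpace 𝕜 (KX 𝕜 E) where
  norm_smul_le c f := by
    have h : ‖(c • f).fn‖ ≤ ‖c‖ * ‖f.fn‖ := by
      apply ContinuousLinearMap.opNorm_le_bound _ (by positivity)
      intro z
      rw [smul_fn]
      calc ‖f.fn (c * z)‖ ≤ ‖f.fn‖ * ‖c * z‖ := f.fn.le_opNorm _
        _ = ‖c‖ * ‖f.fn‖ * ‖z‖ := by rw [norm_mul]; ring
    exact h

/-- `A ↦ (f ↦ A ∘ f)` -/
noncomputable def io (A : E →L[ℝ] E) : KX 𝕜 E →L[𝕜] KX 𝕜 E :=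
  LinearMap.mkContinuous
    { toFun := fun f => mk (A.comp f.fn)
      map_add' := fun f g => ext' fun z => by simp
      map_smul' := fun c f => ext' fun z => by simp } ‖A‖
    (fun f => by
      have h : ‖(A.comp f.fn)‖ ≤ ‖A‖ * ‖f.fn‖ := ContinuousLinearMap.opNorm_comp_le _ _
      exact h)

@[simp] theorem io_fn (A : E →L[ℝ] E) (f : KX 𝕜 E) (z : 𝕜) : (io A f).fn z = A (f.fn z) := rfl

/-- `x ↦ (z ↦ re z • x)` -/
noncomputable def jv (x : E) : KX 𝕜 E := mk ((RCLike.reCLM : 𝕜 →L[ℝ] ℝ).smulRight x)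

@[simp] theorem jv_fn (x : E) (z : 𝕜) : (jv x : KX 𝕜 E).fn z = RCLike.re z • x := rfl

theorem norm_jv_le (x : E) : ‖(jv x : KX 𝕜 E)‖ ≤ ‖x‖ := by
  have h : ‖(jv x : KX 𝕜 E).fn‖ ≤ ‖x‖ := by
    apply ContinuousLinearMap.opNorm_le_bound _ (norm_nonneg _)
    intro z
    rw [jv_fn, norm_smul, mul_comm]
    gcongr
    exact RCLike.norm_re_le_norm z
  exact h

theorem jv_add (x y : E) : (jv (x + y) : KX 𝕜 E) = jv x + jv y := ext' fun z => by simp

theorem jv_smul (r : ℝ) (x : E) : (jv (r • x) : KX 𝕜 E) = (r : 𝕜) • jv x := ext' fun z => by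
  simp [smul_smul, mul_comm]

/-- real part of an operator: `x ↦ (T (jv x)) 1` -/
noncomputable def rp (T : KX 𝕜 E →L[𝕜] KX 𝕜 E) : E →L[ℝ] E :=
  LinearMap.mkContinuous
    { toFun := fun x => (T (jv x)).fn 1
      map_add' := fun x y => by rw [jv_add, map_add]; rfl
      map_smul' := fun r x => by
        rw [jv_smul, map_smul, smul_fn, mul_one]
        have : (r : 𝕜) = r • (1 : 𝕜) := by rw [RCLike.real_smul_eq_coe_mul, mul_one]
        rw [this, map_smul]; rfl } ‖T‖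
    (fun x => by
      have h1 := (T (jv x)).fn.le_opNorm (1 : 𝕜)
      have h2 := T.le_opNorm (jv x)
      have h3 := norm_jv_le (𝕜 := 𝕜) x
      rw [norm_one, mul_one, norm_fn] at h1
      exact h1.trans (h2.trans (mul_le_mul_of_nonneg_left h3 (norm_nonneg _))))

@[simp] theorem rp_apply (T : KX 𝕜 E →L[𝕜] KX 𝕜 E) (x : E) : rp T x = (T (jv x)).fn 1 := rfl

/-- imaginary part of an operator: `x ↦ -(T (jv x)) I` -/
noncomputable def ip (T : KX 𝕜 E →L[𝕜] KX 𝕜 E) : E →L[ℝ] E :=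
  LinearMap.mkContinuous
    { toFun := fun x => -(T (jv x)).fn (RCLike.I : 𝕜)
      map_add' := fun x y => by
        rw [jv_add, map_add, fn_add, add_apply, neg_add]
      map_smul' := fun r x => by
        rw [jv_smul, map_smul, smul_fn]
        have : (r : 𝕜) * RCLike.I = r • (RCLike.I : 𝕜) := by rw [RCLike.real_smul_eq_coe_mul]
        rw [this, map_smul, RingHom.id_apply, smul_neg] } ‖T‖
    (fun x => by
      have h1 := (T (jv x)).fn.le_opNorm (RCLike.I : 𝕜)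
      have h2 := T.le_opNorm (jv x)
      have h3 := norm_jv_le (𝕜 := 𝕜) x
      have h4 : ‖(RCLike.I : 𝕜)‖ ≤ 1 := by
        rcases RCLike.I_eq_zero_or_im_I_eq_one (K := 𝕜) with h | h
        · rw [h, norm_zero]; exact zero_le_one
        · have h5 : (RCLike.I : 𝕜) ≠ 0 := by
            intro h6; rw [h6] at h; simp at h
          exact (RCLike.norm_I_of_ne_zero h5).le
      have h6 : ‖(T (jv x)).fn (RCLike.I : 𝕜)‖ ≤ ‖T (jv x)‖ := by
        rw [norm_fn] at h1
        exact h1.trans (by nlinarith [norm_nonneg (T (jv x))])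
      change ‖-(T (jv x)).fn (RCLike.I : 𝕜)‖ ≤ ‖T‖ * ‖x‖
      rw [norm_neg]
      exact h6.trans (h2.trans (mul_le_mul_of_nonneg_left h3 (norm_nonneg _))))

@[simp] theorem ip_apply (T : KX 𝕜 E →L[𝕜] KX 𝕜 E) (x : E) :
    ip T x = -(T (jv x)).fn (RCLike.I : 𝕜) := rfl

end KX

end Pool.Agent.MP8c9cbf
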