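import Pool.Agent.Lib.MP_8c9cbf_an.K.K2
import Pool.Agent.Lib.MP_8c9cbf_an.F.Defs

/-! Row K1: the functors from real operators to operators on `KX 𝕜 E`, `c_0` included.
For `𝕜 = ℝ` we have `RCLike.I = 0`. -/

namespace Pool.Agent.MP8c9cbf

open Finset Filter Topology

variable {𝕜 E : Type} [RCLike 𝕜] [NormedAddCommGroup E] [NormedSpace ℝ E]

namespace KX

private theorem kf_ext {w w' : 𝕜} (h : ∀ z : 𝕜, RCLike.re (z * w) = RCLike.re (z * w')) :
    w = w' := by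
  have h1 := h ((starRingEnd 𝕜) (w - w'))
  have h2 : RCLike.re ((starRingEnd 𝕜) (w - w') * (w - w')) = 0 := by
    rw [mul_sub, map_sub, h1, sub_self]
  rw [RCLike.conj_mul] at h2
  have h3 : ‖w - w'‖ ^ 2 = 0 := by
    have h4 : (((‖w - w'‖ : ℝ) : 𝕜) ^ 2) = ((‖w - w'‖ ^ 2 : ℝ) : 𝕜) := by push_cast; rfl
    rw [h4, RCLike.ofReal_re] at h2
    exact h2
  have h5 : ‖w - w'‖ = 0 := pow_eq_zero_iff (two_ne_zero) |>.1 h3
  exact sub_eq_zero.1 (norm_eq_zero.1 h5)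

private theorem kf_val (φ : E →L[ℝ] ℝ) (f : KX 𝕜 E) (z : 𝕜) :
    RCLike.re (z * ((φ (f.fn 1) : 𝕜) - RCLike.I * (φ (f.fn RCLike.I) : 𝕜))) = φ (f.fn z) := by
  have h1 : z = RCLike.re z • (1 : 𝕜) + RCLike.im z • (RCLike.I : 𝕜) := by
    rw [RCLike.real_smul_eq_coe_mul, RCLike.real_smul_eq_coe_mul, mul_one]
    exact (RCLike.re_add_im z).symm
  have h2 : f.fn z = RCLike.re z • f.fn 1 + RCLike.im z • f.fn (RCLike.I : 𝕜) := by
    conv_lhs => rw [h1]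
    rw [map_add, map_smul, map_smul]
  rw [h2, map_add, map_smul, map_smul, smul_eq_mul, smul_eq_mul, mul_sub, map_sub,
    ← mul_assoc, RCLike.re_mul_ofReal, RCLike.re_mul_ofReal, mul_comm z RCLike.I, RCLike.I_mul_re]
  ring

private theorem kf_norm_apply (f : KX 𝕜 E) {z : 𝕜} (hz : ‖z‖ ≤ 1) : ‖f.fn z‖ ≤ ‖f‖ := by
  have h1 := f.fn.le_opNorm z
  rw [norm_fn] at h1
  exact h1.trans (mul_le_of_le_one_right (norm_nonneg _) hz)

private theorem kf_norm_I : ‖(RCLike.I : 𝕜)‖ ≤ 1 := by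
  rcases RCLike.I_eq_zero_or_im_I_eq_one (K := 𝕜) with h | h
  · rw [h, norm_zero]; exact zero_le_one
  · have h5 : (RCLike.I : 𝕜) ≠ 0 := by
      intro h6; rw [h6] at h; simp at h
    exact (RCLike.norm_I_of_ne_zero h5).le

private theorem kf_trivial {C : ℝ} (hC : C < 0) (h : ∀ x : E, 0 ≤ C * ‖x‖) (f : KX 𝕜 E) :
    ‖f‖ = 0 := by
  rw [norm_eq_zero]
  apply ext'
  intro z
  have h1 := h (f.fn z)
  have h2 : ‖f.fn z‖ ≤ 0 := by
    by_contra hcon
    push Not at hcon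
    nlinarith
  rw [norm_le_zero_iff.1 h2]
  rfl

/-- a real functional `φ` gives the `𝕜`-linear functional `f ↦ φ (f 1) - I φ (f I)` -/
theorem exists_ce (φ : E →L[ℝ] ℝ) (C : ℝ) (hC : ∀ x, ‖φ x‖ ≤ C * ‖x‖) :
    ∃ ψ : KX 𝕜 E →L[𝕜] 𝕜, (∀ f, ψ f = (φ (f.fn 1) : 𝕜) - RCLike.I * (φ (f.fn RCLike.I) : 𝕜)) ∧
      ∀ f, ‖ψ f‖ ≤ 2 * C * ‖f‖ := by
  let L : KX 𝕜 E →ₗ[𝕜] 𝕜 :=
    { toFun := fun f => (φ (f.fn 1) : 𝕜) - RCLike.I * (φ (f.fn RCLike.I) : 𝕜)
      map_add' := fun f g => by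
        apply kf_ext
        intro z
        rw [kf_val, mul_add, map_add, kf_val, kf_val, fn_add, _root_.add_apply, map_add]
      map_smul' := fun c f => by
        apply kf_ext
        intro z
        rw [kf_val, smul_fn, RingHom.id_apply, smul_eq_mul, ← mul_assoc, mul_comm z c,
          kf_val] }
  have hL : ∀ f, L f = (φ (f.fn 1) : 𝕜) - RCLike.I * (φ (f.fn RCLike.I) : 𝕜) := fun f => rfl
  have hb : ∀ f, ‖L f‖ ≤ 2 * C * ‖f‖ := by
    intro f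
    have h0 : ‖L f‖ ≤ ‖φ (f.fn 1)‖ + ‖φ (f.fn (RCLike.I : 𝕜))‖ := by
      rw [hL]
      refine (norm_sub_le _ _).trans ?_
      rw [norm_mul, RCLike.norm_ofReal, RCLike.norm_ofReal]
      have h1 := mul_le_mul_of_nonneg_right (kf_norm_I (𝕜 := 𝕜))
        (abs_nonneg (φ (f.fn (RCLike.I : 𝕜))))
      rw [one_mul] at h1
      rw [Real.norm_eq_abs, Real.norm_eq_abs]
      linarith
    have h1 := hC (f.fn 1)
    have h2 := hC (f.fn (RCLike.I : 𝕜))
    rcases le_or_gt 0 C with hC0 | hC0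
    · have h3 := mul_le_mul_of_nonneg_left (kf_norm_apply f (z := 1) (by rw [norm_one])) hC0
      have h4 := mul_le_mul_of_nonneg_left (kf_norm_apply f (kf_norm_I (𝕜 := 𝕜))) hC0
      linarith
    · have h3 := kf_trivial hC0 (fun x => (norm_nonneg _).trans (hC x)) f
      have h4 : f = 0 := norm_eq_zero.1 h3
      rw [h4, map_zero, norm_zero, norm_zero, mul_zero]
  exact ⟨L.mkContinuous (2 * C) hb, hL, hb⟩

/-- the same for maps into `c_0` -/
theorem exists_ca (u : E →L[ℝ] CZ ℝ) (C : ℝ) (hC : ∀ x, ‖u x‖ ≤ C * ‖x‖) :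
    ∃ U : KX 𝕜 E →L[𝕜] CZ 𝕜,
      (∀ f k, U f k = (u (f.fn 1) k : 𝕜) - RCLike.I * (u (f.fn RCLike.I) k : 𝕜)) ∧
      ∀ f, ‖U f‖ ≤ 2 * C * ‖f‖ := by
  have hk : ∀ k, ∃ ψ : KX 𝕜 E →L[𝕜] 𝕜,
      (∀ f, ψ f = (u (f.fn 1) k : 𝕜) - RCLike.I * (u (f.fn RCLike.I) k : 𝕜)) ∧
      ∀ f, ‖ψ f‖ ≤ 2 * C * ‖f‖ := fun k =>
    exists_ce ((CZ.co k).comp u) C fun x => (CZ.norm_coord_le (u x) k).trans (hC x)
  choose ψ h1 h2 using hk
  have h3 : ∀ n f, ‖ψ n f‖ ≤ (2 * max C 0) * ‖f‖ := fun n f =>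
    (h2 n f).trans (mul_le_mul_of_nonneg_right
      (by linarith [le_max_left C 0]) (norm_nonneg f))
  have h0 : ∀ f, Tendsto (fun n => ψ n f) atTop (𝓝 0) := by
    intro f
    have g1 : Tendsto (fun n => ((u (f.fn 1) n : ℝ) : 𝕜)) atTop (𝓝 ((0 : ℝ) : 𝕜)) :=
      (RCLike.continuous_ofReal.tendsto _).comp (CZ.tendsto (u (f.fn 1)))
    have g2 : Tendsto (fun n => ((u (f.fn RCLike.I) n : ℝ) : 𝕜)) atTop (𝓝 ((0 : ℝ) : 𝕜)) :=
      (RCLike.continuous_ofReal.tendsto _).comp (CZ.tendsto (u (f.fn RCLike.I)))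
    have g3 := g1.sub (g2.const_mul RCLike.I)
    rw [RCLike.ofReal_zero, mul_zero, sub_zero] at g3
    refine g3.congr fun n => (h1 n f).symm
  refine ⟨CZ.lift ψ (2 * max C 0) (by positivity) h3 h0, fun f k => ?_, fun f => ?_⟩
  · rw [CZ.lift_apply, h1]
  · rcases le_or_gt 0 C with hC0 | hC0
    · refine CZ.norm_le _ (by positivity) fun k => ?_
      rw [CZ.lift_apply]
      exact h2 k f
    · have h4 := kf_trivial hC0 (fun x => (norm_nonneg _).trans (hC x)) f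
      have h5 : f = 0 := norm_eq_zero.1 h4
      rw [h5, map_zero, norm_zero, norm_zero, mul_zero]

/-- the real part of `z w`, `w` in `c_0` -/
theorem exists_re (w : CZ 𝕜) (z : 𝕜) : ∃ x : CZ ℝ, (∀ k, x k = RCLike.re (z * w k)) ∧
    ‖x‖ ≤ ‖z‖ * ‖w‖ := by
  have h0 : Tendsto (fun k => RCLike.re (z * w k)) atTop (𝓝 0) := by
    have h1 := (RCLike.continuous_re.tendsto _).comp ((CZ.tendsto w).const_mul z)
    rw [mul_zero, map_zero] at h1
    exact h1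
  refine ⟨CZ.mk _ h0, fun k => rfl, CZ.norm_le _ (by positivity) fun k => ?_⟩
  rw [CZ.mk_apply]
  refine (RCLike.norm_re_le_norm _).trans ?_
  rw [norm_mul]
  exact mul_le_mul_of_nonneg_left (CZ.norm_coord_le w k) (norm_nonneg z)

/-- the real part of `z w` as a function -/
noncomputable def reC (w : CZ 𝕜) (z : 𝕜) : CZ ℝ := (exists_re w z).choose

theorem reC_apply (w : CZ 𝕜) (z : 𝕜) (k : ℕ) : reC w z k = RCLike.re (z * w k) :=
  (exists_re w z).choose_spec.1 k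

theorem norm_reC_le (w : CZ 𝕜) (z : 𝕜) : ‖reC w z‖ ≤ ‖z‖ * ‖w‖ := (exists_re w z).choose_spec.2

/-- a real operator `v : c_0 → E` gives `w ↦ (z ↦ v (re (z w)))` -/
theorem exists_cb (v : CZ ℝ →L[ℝ] E) (C : ℝ) (hC : ∀ u, ‖v u‖ ≤ C * ‖u‖) :
    ∃ V : CZ 𝕜 →L[𝕜] KX 𝕜 E, (∀ w z, (V w).fn z = v (reC w z)) ∧ ∀ w, ‖V w‖ ≤ C * ‖w‖ := by
  have hC0 : 0 ≤ C := by
    have h1 := (norm_nonneg _).trans (hC (CZ.dl 0))
    have h2 := CZ.norm_coord_le (CZ.dl 0 : CZ ℝ) 0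
    rw [CZ.dl_apply, if_pos rfl, norm_one] at h2
    by_contra hcon
    push Not at hcon
    nlinarith
  have hadd : ∀ (w : CZ 𝕜) (z z' : 𝕜), reC w (z + z') = reC w z + reC w z' := by
    intro w z z'
    apply CZ.ext
    intro k
    rw [ZeroAtInftyContinuousMap.add_apply, reC_apply, reC_apply, reC_apply, add_mul, map_add]
  have hsmul : ∀ (w : CZ 𝕜) (r : ℝ) (z : 𝕜), reC w (r • z) = r • reC w z := by
    intro w r z
    apply CZ.ext
    intro k
    rw [ZeroAtInftyContinuousMap.smul_apply, reC_apply, reC_apply, RCLike.real_smul_eq_coe_mul,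
      mul_assoc, RCLike.re_ofReal_mul, smul_eq_mul]
  let g : CZ 𝕜 → (𝕜 →L[ℝ] E) := fun w => LinearMap.mkContinuous
    { toFun := fun z => v (reC w z)
      map_add' := fun z z' => by rw [hadd, map_add]
      map_smul' := fun r z => by rw [hsmul, map_smul]; rfl } (C * ‖w‖) (fun z => by
      refine (hC _).trans ?_
      have := mul_le_mul_of_nonneg_left (norm_reC_le w z) hC0
      calc C * ‖reC w z‖ ≤ C * (‖z‖ * ‖w‖) := this
        _ = C * ‖w‖ * ‖z‖ := by ring)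
  have hg : ∀ w z, g w z = v (reC w z) := fun w z => rfl
  have hgn : ∀ w, ‖g w‖ ≤ C * ‖w‖ := fun w =>
    LinearMap.mkContinuous_norm_le _ (by positivity) _
  let L : CZ 𝕜 →ₗ[𝕜] KX 𝕜 E :=
    { toFun := fun w => mk (g w)
      map_add' := fun w w' => ext' fun z => by
        rw [fn_add, _root_.add_apply, fn_mk, fn_mk, fn_mk, hg, hg, hg, ← map_add]
        congr 1
        apply CZ.ext
        intro k
        rw [ZeroAtInftyContinuousMap.add_apply, reC_apply, reC_apply, reC_apply,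
          ZeroAtInftyContinuousMap.add_apply, mul_add, map_add]
      map_smul' := fun c w => ext' fun z => by
        rw [RingHom.id_apply, smul_fn, fn_mk, fn_mk, hg, hg]
        congr 1
        apply CZ.ext
        intro k
        rw [reC_apply, reC_apply, ZeroAtInftyContinuousMap.smul_apply, smul_eq_mul, ← mul_assoc,
          mul_comm z c] }
  exact ⟨L.mkContinuous C hgn, fun w z => rfl, hgn⟩

/-- for `f` in `KX 𝕜 (c_0)`-like data: if `w k = u (f 1) k - I u (f I) k` then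
`re (z w) = u (f z)` -/
theorem reC_eq (u : E →L[ℝ] CZ ℝ) (f : KX 𝕜 E) (w : CZ 𝕜)
    (hw : ∀ k, w k = (u (f.fn 1) k : 𝕜) - RCLike.I * (u (f.fn RCLike.I) k : 𝕜)) (z : 𝕜) :
    reC w z = u (f.fn z) := by
  apply CZ.ext
  intro k
  rw [reC_apply, hw]
  exact kf_val ((CZ.co k).comp u) f z

/-- `re (w k) - I re (I w k) = w k` -/
theorem re_sub (w : 𝕜) : ((RCLike.re w : ℝ) : 𝕜) - RCLike.I * ((RCLike.re (RCLike.I * w) : ℝ) : 𝕜)
    = w := by
  rw [RCLike.I_mul_re]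
  push_cast
  have := RCLike.re_add_im w
  linear_combination this

end KX

end Pool.Agent.MP8c9cbf
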