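import Pool.Agent.Lib.MP_8c9cbf_an.K.KF

/-! Row K2: the structure `FS` over `𝕜` from the real one.
`Q := io Q`, `A := ca A`, `B := cb B`, `J := cb J`, `R := ca R`, `e := ce e` (choose from
`exists_ca`, ..), `C := 2 C`.  `sc`: `T = io (rp T) + I io (ip T)` (`KX.decomp`), `c = c1 + I c2`, and
`‖io W f - io Q (io W f)‖ ≤ ε ‖f‖` if `‖W x - Q (W x)‖ ≤ ε ‖x‖` for all `x` (evaluate at `z`).
`shr`: `φ f = φ (jv (f 1)) - I φ (jv (f I))` (`KX.eq_jv`); `x ↦ re (φ (jv x))`, `x ↦ im (φ (jv x))` are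
real functionals, use `shr` of `F` for both. -/

namespace Pool.Agent.MP8c9cbf

open Finset Filter Topology

variable {𝕜 E : Type} [RCLike 𝕜] [NormedAddCommGroup E] [NormedSpace ℝ E]

namespace KX

/-- the value at a point of the unit ball is bounded by the norm -/
theorem norm_apply_le (f : KX 𝕜 E) {z : 𝕜} (hz : ‖z‖ ≤ 1) : ‖f.fn z‖ ≤ ‖f‖ := by
  have h1 := f.fn.le_opNorm z
  rw [norm_fn] at h1
  exact h1.trans (mul_le_of_le_one_right (norm_nonneg _) hz)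

theorem norm_I_le : ‖(RCLike.I : 𝕜)‖ ≤ 1 := by
  rcases RCLike.I_eq_zero_or_im_I_eq_one (K := 𝕜) with h | h
  · rw [h, norm_zero]; exact zero_le_one
  · have h5 : (RCLike.I : 𝕜) ≠ 0 := by
      intro h6; rw [h6] at h; simp at h
    exact (RCLike.norm_I_of_ne_zero h5).le

/-- the values at `1` and `I` bound the norm -/
theorem norm_le_add (f : KX 𝕜 E) : ‖f‖ ≤ ‖f.fn 1‖ + ‖f.fn (RCLike.I : 𝕜)‖ := by
  rw [← norm_fn]
  refine ContinuousLinearMap.opNorm_le_bound _ (by positivity) fun z => ?_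
  have h1 : z = RCLike.re z • (1 : 𝕜) + RCLike.im z • (RCLike.I : 𝕜) := by
    rw [RCLike.real_smul_eq_coe_mul, RCLike.real_smul_eq_coe_mul, mul_one]
    exact (RCLike.re_add_im z).symm
  have h2 : f.fn z = RCLike.re z • f.fn 1 + RCLike.im z • f.fn (RCLike.I : 𝕜) := by
    conv_lhs => rw [h1]
    rw [map_add, map_smul, map_smul]
  rw [h2]
  have h3 := norm_add_le (RCLike.re z • f.fn 1) (RCLike.im z • f.fn (RCLike.I : 𝕜))
  rw [norm_smul, norm_smul] at h3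
  have h4 : ‖RCLike.re z‖ ≤ ‖z‖ := RCLike.norm_re_le_norm z
  have h5 : ‖RCLike.im z‖ ≤ ‖z‖ := RCLike.norm_im_le_norm z
  have h6 := mul_le_mul_of_nonneg_right h4 (norm_nonneg (f.fn 1))
  have h7 := mul_le_mul_of_nonneg_right h5 (norm_nonneg (f.fn (RCLike.I : 𝕜)))
  nlinarith

theorem fn_mul_real (f : KX 𝕜 E) (r : ℝ) (z : 𝕜) : f.fn ((r : 𝕜) * z) = r • f.fn z := by
  have : (r : 𝕜) * z = r • z := by rw [RCLike.real_smul_eq_coe_mul]
  rw [this, map_smul]

/-- the operator part of `sc` -/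
private theorem ks_sc (F : FS ℝ E) (T : KX 𝕜 E →L[𝕜] KX 𝕜 E) : ∃ c : 𝕜, ∀ ε : ℝ, 0 < ε →
    ∃ n0 : ℕ, ∀ n ≥ n0, ∀ f, ‖(T f - c • f) - io (F.Q n) (T f - c • f)‖ ≤ ε * ‖f‖ := by
  obtain ⟨c1, h1⟩ := F.sc (rp T)
  obtain ⟨c2, h2⟩ := F.sc (ip T)
  refine ⟨(c1 : 𝕜) + RCLike.I * (c2 : 𝕜), fun ε hε => ?_⟩
  obtain ⟨n1, hn1⟩ := h1 (ε / 2) (by positivity)
  obtain ⟨n2, hn2⟩ := h2 (ε / 2) (by positivity)
  refine ⟨max n1 n2, fun n hn f => ?_⟩
  have g1 := hn1 n ((le_max_left _ _).trans hn)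
  have g2 := hn2 n ((le_max_right _ _).trans hn)
  set W1 : E →L[ℝ] E := rp T - c1 • ContinuousLinearMap.id ℝ E with hW1
  set W2 : E →L[ℝ] E := ip T - c2 • ContinuousLinearMap.id ℝ E with hW2
  set V1 : E →L[ℝ] E := W1 - (F.Q n).comp W1 with hV1
  set V2 : E →L[ℝ] E := W2 - (F.Q n).comp W2 with hV2
  have hV1x : ∀ x, V1 x = (rp T x - c1 • x) - F.Q n (rp T x - c1 • x) := fun x => rfl
  have hV2x : ∀ x, V2 x = (ip T x - c2 • x) - F.Q n (ip T x - c2 • x) := fun x => rfl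
  have hV1n : ‖V1‖ ≤ ε / 2 :=
    ContinuousLinearMap.opNorm_le_bound _ (by positivity) fun x => by rw [hV1x]; exact g1 x
  have hV2n : ‖V2‖ ≤ ε / 2 :=
    ContinuousLinearMap.opNorm_le_bound _ (by positivity) fun x => by rw [hV2x]; exact g2 x
  have key : (T f - ((c1 : 𝕜) + RCLike.I * (c2 : 𝕜)) • f) -
      io (F.Q n) (T f - ((c1 : 𝕜) + RCLike.I * (c2 : 𝕜)) • f) =
      io V1 f + (RCLike.I : 𝕜) • io V2 f := by
    apply ext'
    intro z
    have e1 : (T f).fn z = rp T (f.fn z) + ip T (f.fn (RCLike.I * z)) := by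
      conv_lhs => rw [decomp T]
      rw [_root_.add_apply, fn_add, _root_.add_apply, _root_.smul_apply, smul_fn, io_fn, io_fn]
    have e2 : ((((c1 : 𝕜) + RCLike.I * (c2 : 𝕜)) • f : KX 𝕜 E)).fn z =
        c1 • f.fn z + c2 • f.fn (RCLike.I * z) := by
      rw [smul_fn, add_mul, map_add, fn_mul_real]
      congr 1
      have e3 : RCLike.I * (c2 : 𝕜) * z = (c2 : 𝕜) * (RCLike.I * z) := by ring
      rw [e3, fn_mul_real]
    have e3 : ((RCLike.I : 𝕜) • (io V2 f : KX 𝕜 E)).fn z = V2 (f.fn (RCLike.I * z)) := by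
      rw [smul_fn, io_fn]
    rw [fn_sub, fn_add, _root_.sub_apply, _root_.add_apply, io_fn, io_fn, e3,
      fn_sub, _root_.sub_apply, hV1x, hV2x, e1, e2]
    simp only [map_sub, map_add, map_smul]
    abel
  rw [key]
  refine (norm_add_le _ _).trans ?_
  have i1 : ‖(io V1 f : KX 𝕜 E)‖ ≤ ε / 2 * ‖f‖ :=
    ((io V1 : KX 𝕜 E →L[𝕜] KX 𝕜 E).le_opNorm f).trans
      (mul_le_mul_of_nonneg_right ((norm_io_le V1).trans hV1n) (norm_nonneg _))
  have i2 : ‖(io V2 f : KX 𝕜 E)‖ ≤ ε / 2 * ‖f‖ :=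
    ((io V2 : KX 𝕜 E →L[𝕜] KX 𝕜 E).le_opNorm f).trans
      (mul_le_mul_of_nonneg_right ((norm_io_le V2).trans hV2n) (norm_nonneg _))
  have i3 : ‖(RCLike.I : 𝕜) • (io V2 f : KX 𝕜 E)‖ ≤ ε / 2 * ‖f‖ := by
    rw [norm_smul]
    exact (mul_le_of_le_one_left (norm_nonneg _) norm_I_le).trans i2
  linarith

/-- the functional part -/
private theorem ks_shr (F : FS ℝ E) (φ : KX 𝕜 E →L[𝕜] 𝕜) : ∀ ε : ℝ, 0 < ε →
    ∃ n0 : ℕ, ∀ n ≥ n0, ∀ f, ‖φ (f - io (F.Q n) f)‖ ≤ ε * ‖f‖ := by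
  have hbd : ∀ x : E, ‖φ (jv x)‖ ≤ ‖φ‖ * ‖x‖ := fun x =>
    (φ.le_opNorm _).trans (mul_le_mul_of_nonneg_left (norm_jv_le x)
      (ContinuousLinearMap.opNorm_nonneg _))
  let a : E →L[ℝ] ℝ := LinearMap.mkContinuous
    { toFun := fun x => RCLike.re (φ (jv x))
      map_add' := fun x y => by rw [jv_add, map_add, map_add]
      map_smul' := fun r x => by
        rw [jv_smul, map_smul, smul_eq_mul, RCLike.re_ofReal_mul]; rfl } ‖φ‖
    (fun x => (RCLike.norm_re_le_norm _).trans (hbd x))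
  let b : E →L[ℝ] ℝ := LinearMap.mkContinuous
    { toFun := fun x => RCLike.im (φ (jv x))
      map_add' := fun x y => by rw [jv_add, map_add, map_add]
      map_smul' := fun r x => by
        rw [jv_smul, map_smul, smul_eq_mul, RCLike.im_ofReal_mul]; rfl } ‖φ‖
    (fun x => (RCLike.norm_im_le_norm _).trans (hbd x))
  have ha : ∀ x, a x = RCLike.re (φ (jv x)) := fun x => rfl
  have hb : ∀ x, b x = RCLike.im (φ (jv x)) := fun x => rfl
  intro ε hε
  obtain ⟨n1, hn1⟩ := F.shr a (ε / 4) (by positivity)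
  obtain ⟨n2, hn2⟩ := F.shr b (ε / 4) (by positivity)
  refine ⟨max n1 n2, fun n hn f => ?_⟩
  have key : ∀ x : E, ‖φ (jv (x - F.Q n x))‖ ≤ ε / 2 * ‖x‖ := by
    intro x
    have g1 := hn1 n ((le_max_left _ _).trans hn) x
    have g2 := hn2 n ((le_max_right _ _).trans hn) x
    rw [ha, Real.norm_eq_abs] at g1
    rw [hb, Real.norm_eq_abs] at g2
    have g3 : ‖φ (jv (x - F.Q n x))‖ ≤ |RCLike.re (φ (jv (x - F.Q n x)))| +
        |RCLike.im (φ (jv (x - F.Q n x)))| := by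
      conv_lhs => rw [← RCLike.re_add_im (φ (jv (x - F.Q n x)))]
      refine (norm_add_le _ _).trans ?_
      rw [norm_mul, RCLike.norm_ofReal, RCLike.norm_ofReal]
      have := mul_le_of_le_one_right (abs_nonneg (RCLike.im (φ (jv (x - F.Q n x)))))
        (norm_I_le (𝕜 := 𝕜))
      linarith
    linarith
  set g : KX 𝕜 E := f - io (F.Q n) f with hg
  have g1 : g.fn 1 = f.fn 1 - F.Q n (f.fn 1) := rfl
  have g2 : -(g.fn (RCLike.I : 𝕜)) = (-(f.fn RCLike.I)) - F.Q n (-(f.fn RCLike.I)) := by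
    have : g.fn (RCLike.I : 𝕜) = f.fn RCLike.I - F.Q n (f.fn RCLike.I) := rfl
    rw [this, map_neg]
    abel
  rw [eq_jv g, map_add, map_smul, smul_eq_mul, g1, g2]
  have h1 := key (f.fn 1)
  have h2 := key (-(f.fn RCLike.I))
  rw [norm_neg] at h2
  have h3 : ‖f.fn (1 : 𝕜)‖ ≤ ‖f‖ := norm_apply_le f (by rw [norm_one])
  have h4 : ‖f.fn (RCLike.I : 𝕜)‖ ≤ ‖f‖ := norm_apply_le f norm_I_le
  refine (norm_add_le _ _).trans ?_
  rw [norm_mul]
  have h5 : ‖(RCLike.I : 𝕜)‖ * ‖φ (jv (-(f.fn RCLike.I) - F.Q n (-(f.fn RCLike.I))))‖ ≤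
      ε / 2 * ‖f.fn (RCLike.I : 𝕜)‖ :=
    (mul_le_of_le_one_left (norm_nonneg _) norm_I_le).trans h2
  nlinarith

end KX

open KX in
theorem FS.exists_K (F : FS ℝ E) : Nonempty (FS 𝕜 (KX 𝕜 E)) := by
  have hC0 : 0 ≤ F.C := by
    have h1 := (norm_nonneg _).trans (F.nB 0 (CZ.dl 0))
    have h2 := CZ.norm_coord_le (CZ.dl 0 : CZ ℝ) 0
    rw [CZ.dl_apply, if_pos rfl, norm_one] at h2
    by_contra hcon
    push Not at hcon
    nlinarith
  choose a ha1 ha2 using fun n => exists_ca (𝕜 := 𝕜) (F.A n) F.C (F.nA n)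
  choose b hb1 hb2 using fun n => exists_cb (𝕜 := 𝕜) (F.B n) F.C (F.nB n)
  choose j hj1 hj2 using fun n => exists_cb (𝕜 := 𝕜) (F.J n) F.C (F.nJ n)
  choose r hr1 hr2 using fun n => exists_ca (𝕜 := 𝕜) (F.R n) F.C (F.nR n)
  choose e he1 he2 using fun k => exists_ce (𝕜 := 𝕜) (F.e k) F.C (F.ne k)
  have hre : ∀ (u : CZ 𝕜) (k : ℕ), ((reC u 1 k : ℝ) : 𝕜) - RCLike.I * ((reC u RCLike.I k : ℝ) : 𝕜)
      = u k := by
    intro u k
    rw [reC_apply, reC_apply, one_mul]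
    exact re_sub (u k)
  exact ⟨
    { Q := fun n => io (F.Q n)
      A := a
      B := b
      J := j
      R := r
      e := e
      rk := F.rk
      C := 2 * F.C
      nA := ha2
      nB := fun n u => (hb2 n u).trans
        (mul_le_mul_of_nonneg_right (by linarith) (norm_nonneg _))
      nJ := fun n u => (hj2 n u).trans
        (mul_le_mul_of_nonneg_right (by linarith) (norm_nonneg _))
      nR := hr2
      ne := he2
      BA := fun n f => ext' fun z => by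
        rw [hb1, reC_eq (F.A n) f (a n f) (ha1 n f), F.BA, io_fn]
      RJ := fun n u => CZ.ext fun k => by
        rw [hr1, hj1, hj1, F.RJ, F.RJ, hre]
      RQ := fun n f => CZ.ext fun k => by
        rw [hr1, io_fn, io_fn, F.RQ, F.RQ, ZeroAtInftyContinuousMap.zero_apply,
          ZeroAtInftyContinuousMap.zero_apply, RCLike.ofReal_zero, mul_zero, sub_zero]
      QQ := fun m n f => ext' fun z => by rw [io_fn, io_fn, io_fn, F.QQ]
      Q_tendsto := fun f => by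
        rw [tendsto_iff_norm_sub_tendsto_zero]
        have h1 := tendsto_iff_norm_sub_tendsto_zero.1 (F.Q_tendsto (f.fn 1))
        have h2 := tendsto_iff_norm_sub_tendsto_zero.1 (F.Q_tendsto (f.fn RCLike.I))
        have h3 := h1.add h2
        rw [add_zero] at h3
        refine squeeze_zero (fun n => norm_nonneg _) (fun n => ?_) h3
        exact norm_le_add (io (F.Q n) f - f)
      A_apply := fun n f k => by
        rw [ha1, F.A_apply, F.A_apply, he1]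
        split_ifs
        · rfl
        · rw [RCLike.ofReal_zero, mul_zero, sub_zero]
      e_B := fun n u k hk => by
        rw [he1, hb1, hb1, F.e_B n _ k hk, F.e_B n _ k hk, hre]
      sc := fun T => ks_sc F T
      shr := fun φ => ks_shr F φ }⟩

end Pool.Agent.MP8c9cbf
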